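import Pool.Agent.H14.N6E.EHOM

/-!
# The places above, elements from below
-/

set_option autoImplicit false

namespace Pool.Agent.H14.N6E

open Polynomial NumberField IsDedekindDomain Pool.Agent.H32.QC Pool.Agent.H34.N6
open Pool.Agent.H13.DEV Filter Topology

theorem pf_BEL : T_BEL := by
  intro k L _ _ _ _ _ w
  obtain ⟨φ, hc, hφ⟩ := exists_up (k := k) w
  obtain ⟨p, hp, hp1⟩ := exists_small (w.under (𝓞 k))
  refine ⟨fun x => ?_, fun n => ?_, fun ε hε => ?_⟩
  · have h := norm_iff_of_cont φ hc hp hp1 (ic (w.under (𝓞 k)) x)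
    rw [hφ] at h
    exact h
  · change (n : 𝓞 L) ∈ w.asIdeal ↔ algebraMap (𝓞 k) (𝓞 L) (n : 𝓞 k) ∈ w.asIdeal
    rw [map_natCast]
  · have h0 : ContinuousAt φ 0 := hc.continuousAt
    obtain ⟨δ, hδ, h⟩ := Metric.continuousAt_iff.1 h0 ε hε
    refine ⟨δ, hδ, fun x hx => ?_⟩
    have h1 := @h (ic (w.under (𝓞 k)) x) (by rw [dist_zero_right]; exact hx)
    rw [map_zero, dist_zero_right, hφ] at h1
    exact h1

end Pool.Agent.H14.N6E
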