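import Pool.Agent.H13.DEV.Targets
import Pool.Agent.H34.N6.LibC

/-!
# Continuous homomorphisms between completions
-/

set_option autoImplicit false

namespace Pool.Agent.H14.N6E

open Polynomial NumberField IsDedekindDomain Pool.Agent.H32.QC Pool.Agent.H34.N6
open Pool.Agent.H13.DEV Filter Topology

theorem norm_lt_of_cont {F₁ F₂ : Type} [NormedField F₁] [NormedField F₂] (φ : F₁ →+* F₂)
    (hφ : Continuous φ) {y : F₁} (hy : ‖y‖ < 1) : ‖φ y‖ < 1 := by
  by_contra h1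
  push Not at h1
  have h2 : Tendsto (fun n : ℕ => y ^ n) atTop (𝓝 0) :=
    tendsto_pow_atTop_nhds_zero_of_norm_lt_one hy
  have h3 : Tendsto (fun n : ℕ => φ (y ^ n)) atTop (𝓝 (φ 0)) := (hφ.tendsto 0).comp h2
  rw [map_zero] at h3
  have h4 := h3.norm
  rw [norm_zero] at h4
  have h5 : (1 : ℝ) ≤ 0 := by
    refine ge_of_tendsto' h4 fun n => ?_
    rw [map_pow, norm_pow]
    exact one_le_pow₀ h1
  linarith

theorem norm_iff_of_cont {F₁ F₂ : Type} [NormedField F₁] [NormedField F₂] (φ : F₁ →+* F₂)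
    (hφ : Continuous φ) {p : F₁} (hp : p ≠ 0) (hp1 : ‖p‖ < 1) (x : F₁) :
    (‖φ x‖ ≤ 1 ↔ ‖x‖ ≤ 1) ∧ (‖φ x‖ < 1 ↔ ‖x‖ < 1) := by
  refine ⟨⟨fun h => ?_, norm_le_of_cont φ hφ hp hp1⟩, ⟨fun h => ?_, norm_lt_of_cont φ hφ⟩⟩
  · by_contra h1
    push Not at h1
    have h2 : ‖x⁻¹‖ < 1 := by
      rw [norm_inv]
      exact inv_lt_one_of_one_lt₀ h1
    have h3 := norm_lt_of_cont φ hφ h2
    rw [map_inv₀, norm_inv] at h3
    have hx : φ x ≠ 0 := by
      rw [_root_.map_ne_zero]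
      rintro rfl
      rw [norm_zero] at h1
      linarith
    have h4 : 0 < ‖φ x‖ := norm_pos_iff.2 hx
    have h5 := (inv_lt_one₀ h4).1 h3
    linarith
  · by_contra h1
    push Not at h1
    have h2 : ‖x⁻¹‖ ≤ 1 := by
      rw [norm_inv]
      exact inv_le_one_of_one_le₀ h1
    have h3 := norm_le_of_cont φ hφ hp hp1 h2
    rw [map_inv₀, norm_inv] at h3
    have hx : φ x ≠ 0 := by
      rw [_root_.map_ne_zero]
      rintro rfl
      rw [norm_zero] at h1
      linarith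
    have h4 : 0 < ‖φ x‖ := norm_pos_iff.2 hx
    have h5 := (inv_le_one₀ h4).1 h3
    linarith

theorem pf_HOM : T_HOM := by
  intro E L _ _ _ _ w w' g hg x
  obtain ⟨p, hp, hp1⟩ := exists_small w'
  exact norm_iff_of_cont g hg hp hp1 x

end Pool.Agent.H14.N6E
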